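import Pool.Agent.R517.Main

/-!
Twin, cousin and sexy pairs of consecutive cyclic numbers between consecutive cubes: the numbers of
pairs are regularly varying of index 2, with explicit asymptotics.
-/

set_option autoImplicit false

namespace Pool.Agent.Results.MP_dca572_nt.CubesRegular

open Filter Topology

/-- `m` is a cyclic number: `m > 0` and `gcd (m, φ m) = 1`. -/
def Cyclic (m : ℕ) : Prop := 0 < m ∧ Nat.gcd m (Nat.totient m) = 1

/-- `T g n` is the number of indices `j` for which the consecutive cyclic numbers `c_j < c_{j+1}` (here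
`c_j` is `Nat.nth Cyclic j`, the enumeration starting at `j = 0`) satisfy
`n ^ 3 < c_j < c_{j+1} < (n + 1) ^ 3` and `c_{j+1} - c_j = g`. -/
noncomputable def T (g n : ℕ) : ℕ := Set.ncard {j : ℕ | n ^ 3 < Nat.nth Cyclic j ∧
  Nat.nth Cyclic (j + 1) < (n + 1) ^ 3 ∧ Nat.nth Cyclic (j + 1) = Nat.nth Cyclic j + g}

/-- the twin prime constant, the product of `1 - 1 / (p - 1) ^ 2` over the odd primes `p` -/
noncomputable def twinConst : ℝ := ∏' p : ℕ, if p.Prime ∧ p ≠ 2 then 1 - 1 / ((p : ℝ) - 1) ^ 2 else 1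

/-- the constants: `6 e^{-2γ} C` for `g = 2, 4` and `12 e^{-2γ} C` for `g = 6` -/
noncomputable def c (g : ℕ) : ℝ :=
  (if g = 6 then 12 else 6) * (Real.exp (-2 * Real.eulerMascheroniConstant) * twinConst)

theorem result (g : ℕ) (hg : g = 2 ∨ g = 4 ∨ g = 6) :
    (∃ (f : ℕ → ℝ) (ρ : ℝ), 1 ≤ ρ ∧ ρ ≤ 5 / 2 ∧ (∀ n, 0 < f n) ∧
      (∀ l : ℝ, 0 < l → Tendsto (fun n : ℕ => f ⌊l * n⌋₊ / f n) atTop (𝓝 (l ^ ρ))) ∧
      Tendsto (fun n : ℕ => (T g n : ℝ) / f n) atTop (𝓝 1)) ∧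
    0 < c g ∧
    Tendsto (fun n : ℕ => (T g n : ℝ) * Real.log (Real.log (Real.log n)) ^ 2 / (n : ℝ) ^ 2) atTop
      (𝓝 (c g)) := by
  have hT : T g = Pool.Agent.R517.T g := rfl
  have hc : c g = 3 * Pool.Agent.R517.kap g := by
    have h1 : twinConst = Pool.Agent.R517.twinC := rfl
    unfold c Pool.Agent.R517.kap
    rw [h1]
    split_ifs <;> ring
  have hk := Pool.Agent.R517.kap_pos g
  have hk3 : 0 < 3 * Pool.Agent.R517.kap g := by positivity
  rw [hT, hc]
  refine ⟨⟨Pool.Agent.R517.fcomp (3 * Pool.Agent.R517.kap g), 2, by norm_num, by norm_num,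
    fun n => Pool.Agent.R517.fcomp_pos hk3 n,
    fun l hl => Pool.Agent.R517.fcomp_regular hk3 hl, Pool.Agent.R517.T_fcomp g hg⟩, hk3,
    Pool.Agent.R517.T_asymp' g hg⟩

end Pool.Agent.Results.MP_dca572_nt.CubesRegular
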